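import Pool.Agent.H24NE.Final

/-!
# MP_a5aec7_al, Q1: every minimal non-Engel variety of associative rings is a Cross variety

Varieties of associative (not necessarily unital) rings are given by sets `E` of pairs of ring
terms, read as identities.  The definitions (`RTerm`, `Models`, `IsEngel`, `MinimalNonEngel`,
`IsCritical`, `IsCross`, ...) are in `Pool/Agent/H854R3/NE/Basic.lean`.
-/

set_option autoImplicit false

namespace Pool.Agent.Results.MP_a5aec7_al.MinimalNonEngelCross

open Pool.Agent.H854R3.NE

/-- If the variety defined by `E` is not Engel but every variety properly contained in it is
Engel, then it is finitely based, locally finite, and contains only finitely many critical rings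
up to isomorphism. -/
theorem result (E : Set (RTerm × RTerm)) (hE : MinimalNonEngel E) : IsCross E :=
  Pool.Agent.H24NE.minimal_cross E hE

end Pool.Agent.Results.MP_a5aec7_al.MinimalNonEngelCross
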